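import Mathlib
import Pool.Agent.VM.StmtsH

set_option autoImplicit false

namespace Pool.Agent.VM.H85

open Pool.Agent.VM Pool.Agent.Helper69_Weyl

theorem sc_omega (k : ℕ) (hk : 1 ≤ k) (hmt : HmtStmt) (C : ℝ) (hC : 1 ≤ C)
    (hp : ∀ (p e : ℕ) (b m : ℤ), p.Prime → ¬ (p : ℤ) ∣ b →
      ‖Sc k (p ^ e) b m‖ ≤ C * ((p ^ e : ℕ) : ℝ) ^ (1 - 1 / (k : ℝ))) (u : ℕ) :
    1 ≤ u → ∀ (b m : ℤ), Int.gcd b u = 1 →
      ‖Sc k u b m‖ ≤ C ^ (u.primeFactors.card) * (u : ℝ) ^ (1 - 1 / (k : ℝ)) := by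
  induction u using Nat.recOnPosPrimePosCoprime with
  | zero => intro h; omega
  | one =>
    intro _ b m _
    have h1 : ‖Sc k 1 b m‖ ≤ 1 := by
      unfold Sc
      calc _ ≤ ∑ x ∈ Finset.range 1, ‖ee (((b * (x : ℤ) ^ k + m * (x : ℤ) : ℤ) : ℝ) / ((1 : ℕ) : ℝ))‖ :=
            norm_sum_le _ _
        _ = 1 := by rw [Finset.sum_range_one, norm_ee]
    rw [Nat.primeFactors_one, Finset.card_empty, pow_zero, Nat.cast_one, Real.one_rpow]
    simpa using h1
  | prime_pow p n hpp hn =>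
    intro _ b m hb
    have h1 : ¬ (p : ℤ) ∣ b := by
      intro hd
      have h2 : (p : ℤ) ∣ ((p ^ n : ℕ) : ℤ) := by
        push_cast
        exact dvd_pow_self _ (by omega)
      have h3 := Int.dvd_coe_gcd hd h2
      rw [hb] at h3
      have h4 : p ∣ 1 := by exact_mod_cast h3
      exact hpp.one_lt.ne' (Nat.dvd_one.1 h4)
    rw [Nat.primeFactors_prime_pow (by omega) hpp, Finset.card_singleton, pow_one]
    exact hp p n b m hpp h1
  | coprime v w hv hw hvw ihv ihw =>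
    intro _ b m hb
    have hgv : Int.gcd (b * (w : ℤ) ^ (k - 1)) v = 1 := by
      rw [← Int.isCoprime_iff_gcd_eq_one] at hb ⊢
      push_cast at hb
      have h1 : IsCoprime b (v : ℤ) := IsCoprime.of_mul_right_left hb
      have h2 : IsCoprime (w : ℤ) (v : ℤ) := (Nat.isCoprime_iff_coprime.2 hvw).symm
      exact IsCoprime.mul_left h1 (IsCoprime.pow_left h2)
    have hgw : Int.gcd (b * (v : ℤ) ^ (k - 1)) w = 1 := by
      rw [← Int.isCoprime_iff_gcd_eq_one] at hb ⊢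
      push_cast at hb
      have h1 : IsCoprime b (w : ℤ) := IsCoprime.of_mul_right_right hb
      have h2 : IsCoprime (v : ℤ) (w : ℤ) := Nat.isCoprime_iff_coprime.2 hvw
      exact IsCoprime.mul_left h1 (IsCoprime.pow_left h2)
    rw [hmt k v w b m hk (by omega) (by omega) hvw, norm_mul]
    have h1 := ihv (by omega) _ m hgv
    have h2 := ihw (by omega) _ m hgw
    have hcard : (v * w).primeFactors.card = v.primeFactors.card + w.primeFactors.card := by
      rw [hvw.primeFactors_mul, Finset.card_union_of_disjoint hvw.disjoint_primeFactors]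
    rw [hcard, pow_add, Nat.cast_mul, Real.mul_rpow (by positivity) (by positivity)]
    calc _ ≤ (C ^ v.primeFactors.card * (v : ℝ) ^ (1 - 1 / (k : ℝ))) *
          (C ^ w.primeFactors.card * (w : ℝ) ^ (1 - 1 / (k : ℝ))) :=
          mul_le_mul h1 h2 (norm_nonneg _) (by positivity)
      _ = _ := by ring

theorem hua (k : ℕ) (hk : 1 ≤ k) (hmt : HmtStmt) (ppw : PpwStmt k) (ome : OmeStmt) :
    HuaStmt k := by
  intro ε hε
  obtain ⟨C, hC1, hC⟩ := ppw
  obtain ⟨C', hC'0, hC'⟩ := ome C ε hC1 hε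
  refine ⟨C', hC'0, fun u b m hu hb => ?_⟩
  have hu0 : (0 : ℝ) < (u : ℝ) := by exact_mod_cast hu
  have h1 := sc_omega k hk hmt C hC1 hC u hu b m hb
  calc ‖Sc k u b m‖ ≤ C ^ (u.primeFactors.card) * (u : ℝ) ^ (1 - 1 / (k : ℝ)) := h1
    _ ≤ (C' * (u : ℝ) ^ ε) * (u : ℝ) ^ (1 - 1 / (k : ℝ)) :=
        mul_le_mul_of_nonneg_right (hC' u hu) (by positivity)
    _ = C' * (u : ℝ) ^ (1 - 1 / (k : ℝ) + ε) := by
        rw [mul_assoc, ← Real.rpow_add hu0, add_comm ε]

end Pool.Agent.VM.H85
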