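import Mathlib
import Pool.Agent.VM.StmtsH
import Pool.Agent.Helper39_VM.Rtu

set_option autoImplicit false

namespace Pool.Agent.VM.H85

open Pool.Agent.VM

theorem rtp : RtpStmt := by
  intro p n s c hp hn hc
  have hn3 : 1 ≤ n ^ 3 := Nat.one_le_pow _ _ (by omega)
  rcases Nat.eq_zero_or_pos s with hs | hs
  · subst hs
    calc _ ≤ (Finset.range (p ^ 0)).card := Finset.card_filter_le _ _
      _ = 1 := by simp
      _ ≤ _ := hn3
  · rcases Finset.eq_empty_or_nonempty ((Finset.range (p ^ s)).filter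
      (fun y : ℕ => ((p : ℤ) ^ s) ∣ (y : ℤ) ^ n - c)) with h0 | ⟨y0, hy0⟩
    · rw [h0]
      simp
    · have hp1 : 1 < p ^ s := Nat.one_lt_pow (by omega) hp.one_lt
      have hcop : ∀ y : ℕ, ((p : ℤ) ^ s) ∣ (y : ℤ) ^ n - c → Nat.Coprime y (p ^ s) := by
        intro y hy
        apply Nat.Coprime.pow_right
        rw [Nat.coprime_comm, hp.coprime_iff_not_dvd]
        intro hd
        apply hc
        have h1 : (p : ℤ) ∣ (y : ℤ) ^ n := by
          have : (p : ℤ) ∣ (y : ℤ) := by exact_mod_cast hd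
          exact this.trans (dvd_pow_self _ (by omega))
        have h2 : (p : ℤ) ∣ (y : ℤ) ^ n - c := (dvd_pow_self _ (by omega)).trans hy
        have h3 := dvd_sub h1 h2
        rwa [sub_sub_cancel] at h3
      rw [Finset.mem_filter, Finset.mem_range] at hy0
      obtain ⟨z, hzlt, hz⟩ := Nat.exists_mul_mod_eq_one_of_coprime (hcop y0 hy0.2) hp1
      have hzm : y0 * z ≡ 1 [MOD p ^ s] := by
        unfold Nat.ModEq
        rw [hz, Nat.mod_eq_of_lt hp1]
      have hzc : Nat.Coprime z (p ^ s) := by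
        have h1 : Nat.Coprime (y0 * z) (p ^ s) := by
          have := hzm.gcd_eq
          rw [Nat.gcd_one_left] at this
          exact this
        exact Nat.Coprime.coprime_mul_left h1
      have hmod : ∀ y : ℕ, ((p : ℤ) ^ s) ∣ (y : ℤ) ^ n - c → y ^ n ≡ y0 ^ n [MOD p ^ s] := by
        intro y hy
        rw [← Int.natCast_modEq_iff]
        push_cast
        rw [Int.modEq_iff_dvd]
        have h3 := dvd_sub hy0.2 hy
        have e : (y0 : ℤ) ^ n - c - ((y : ℤ) ^ n - c) = (y0 : ℤ) ^ n - (y : ℤ) ^ n := by ring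
        rwa [e] at h3
      refine le_trans ?_ (H39.RS_pow (n := s) hp hn)
      apply Finset.card_le_card_of_injOn (fun y => (y * z) % p ^ s)
      · intro y hy
        rw [Finset.mem_coe, Finset.mem_filter] at hy
        rw [Finset.mem_coe, H39.mem_RS]
        refine ⟨Nat.mod_lt _ (by omega), ?_, ?_⟩
        · have h1 : Nat.Coprime (y * z) (p ^ s) := Nat.Coprime.mul_left (hcop y hy.2) hzc
          have h2 := (Nat.mod_modEq (y * z) (p ^ s)).gcd_eq
          unfold Nat.Coprime
          rw [h2]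
          exact h1
        · have h1 : ((y * z) % p ^ s) ^ n ≡ (y * z) ^ n [MOD p ^ s] := (Nat.mod_modEq _ _).pow n
          have h2 : (y * z) ^ n ≡ (y0 * z) ^ n [MOD p ^ s] := by
            rw [mul_pow, mul_pow]
            exact (hmod y hy.2).mul_right _
          have h3 : (y0 * z) ^ n ≡ 1 ^ n [MOD p ^ s] := hzm.pow n
          rw [one_pow] at h3
          exact (h1.trans h2).trans h3
      · intro y hy y' hy' h
        rw [Finset.mem_coe, Finset.mem_filter, Finset.mem_range] at hy hy'
        have h1 : y * z ≡ y' * z [MOD p ^ s] := h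
        have h2 : y ≡ y' [MOD p ^ s] :=
          Nat.ModEq.cancel_right_of_coprime (by rw [Nat.gcd_comm]; exact hzc) h1
        exact Nat.ModEq.eq_of_lt_of_lt h2 hy.1 hy'.1

end Pool.Agent.VM.H85
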