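import Mathlib
import Pool.Agent.VM.StmtsH

set_option autoImplicit false

namespace Pool.Agent.VM.H85

open Pool.Agent.VM

/-- the integer nearest to `ξ - m / u`, as a shift of `m` -/
theorem card_near (x R : ℝ) (hR : 0 ≤ R) (S : Finset ℤ)
    (hS : ∀ k ∈ S, |x - (k : ℝ)| < R + 1) : (S.card : ℝ) ≤ 2 * R + 3 := by
  have hsub : S ⊆ Finset.Icc (⌊x - R - 1⌋ + 1) (⌈x + R + 1⌉ - 1) := by
    intro k hk
    have h := abs_lt.1 (hS k hk)
    rw [Finset.mem_Icc]
    constructor
    · have : (⌊x - R - 1⌋ : ℝ) < (k : ℝ) := lt_of_le_of_lt (Int.floor_le _) (by linarith [h.2])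
      have h2 : ⌊x - R - 1⌋ < k := by exact_mod_cast this
      omega
    · have : (k : ℝ) < (⌈x + R + 1⌉ : ℝ) := lt_of_lt_of_le (by linarith [h.1]) (Int.le_ceil _)
      have h2 : k < ⌈x + R + 1⌉ := by exact_mod_cast this
      omega
  have hc := Finset.card_le_card hsub
  rw [Int.card_Icc] at hc
  have h1 := Int.lt_floor_add_one (x - R - 1)
  have h2 := Int.ceil_lt_add_one (x + R + 1)
  have h3 : (S.card : ℤ) ≤ ((⌈x + R + 1⌉ - 1 + 1 - (⌊x - R - 1⌋ + 1)).toNat : ℤ) := by
    exact_mod_cast hc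
  have h0 : ⌊x - R - 1⌋ < ⌈x + R + 1⌉ := by
    have : (⌊x - R - 1⌋ : ℝ) < (⌈x + R + 1⌉ : ℝ) :=
      lt_of_le_of_lt (Int.floor_le _) (lt_of_lt_of_le (by linarith) (Int.le_ceil _))
    exact_mod_cast this
  rw [Int.toNat_of_nonneg (by omega)] at h3
  have h4 : (S.card : ℝ) ≤ ((⌈x + R + 1⌉ - 1 + 1 - (⌊x - R - 1⌋ + 1) : ℤ) : ℝ) := by
    exact_mod_cast h3
  push_cast at h4
  linarith

theorem sum_inv_le (u : ℕ) : ∑ i ∈ Finset.Icc 1 u, (1 : ℝ) / (i : ℝ) ≤ 1 + Real.log u := by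
  have h := harmonic_le_one_add_log u
  rw [harmonic_eq_sum_Icc] at h
  push_cast at h
  calc ∑ i ∈ Finset.Icc 1 u, (1 : ℝ) / (i : ℝ) = ∑ i ∈ Finset.Icc 1 u, ((i : ℝ))⁻¹ := by
        apply Finset.sum_congr rfl
        intro i _
        rw [one_div]
    _ ≤ _ := h

/-- one side -/
theorem side_le (u : ℕ) (c : ℝ) (hc : 0 ≤ c) (S : Finset ℕ) (F : ℕ → ℝ) (i : ℕ → ℕ)
    (h1 : ∀ m ∈ S, 1 ≤ i m ∧ i m ≤ u) (hF : ∀ m ∈ S, F m ≤ c / (i m : ℝ))
    (hinj : Set.InjOn i (S : Set ℕ)) :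
    ∑ m ∈ S, F m ≤ c * (1 + Real.log u) := by
  calc ∑ m ∈ S, F m ≤ ∑ m ∈ S, c / (i m : ℝ) := Finset.sum_le_sum hF
    _ = ∑ j ∈ S.image i, c / (j : ℝ) := by
        rw [Finset.sum_image hinj]
    _ ≤ ∑ j ∈ Finset.Icc 1 u, c / (j : ℝ) := by
        apply Finset.sum_le_sum_of_subset_of_nonneg
        · intro j hj
          rw [Finset.mem_image] at hj
          obtain ⟨m, hm, rfl⟩ := hj
          rw [Finset.mem_Icc]
          exact h1 m hm
        · intro j _ _
          positivity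
    _ = c * ∑ j ∈ Finset.Icc 1 u, (1 : ℝ) / (j : ℝ) := by
        rw [Finset.mul_sum]
        apply Finset.sum_congr rfl
        intro j _
        ring
    _ ≤ c * (1 + Real.log u) := by
        apply mul_le_mul_of_nonneg_left (sum_inv_le u) hc

theorem spl : SplStmt := by
  intro u ξ ρ A F hu hρ hA hFA hF
  have hu0 : (0 : ℝ) < (u : ℝ) := by exact_mod_cast hu
  set x : ℝ := (u : ℝ) * ξ with hx
  set z : ℕ → ℤ := fun m => round (ξ - (m : ℝ) / (u : ℝ)) with hz
  set k : ℕ → ℤ := fun m => (m : ℤ) + (u : ℤ) * z m with hk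
  have hr : ∀ m : ℕ, x - (k m : ℝ) = (u : ℝ) * (ξ - (m : ℝ) / (u : ℝ) - (z m : ℝ)) := by
    intro m
    simp only [hk, hx]
    push_cast
    field_simp
    ring
  have hhalf : ∀ m : ℕ, |x - (k m : ℝ)| ≤ (u : ℝ) / 2 := by
    intro m
    rw [hr m, abs_mul, abs_of_pos hu0]
    have := abs_sub_round (ξ - (m : ℝ) / (u : ℝ))
    calc (u : ℝ) * |ξ - (m : ℝ) / (u : ℝ) - (z m : ℝ)| ≤ (u : ℝ) * (1 / 2) :=
          mul_le_mul_of_nonneg_left this hu0.le
      _ = _ := by ring
  have hnear : ∀ (m : ℕ) (w : ℤ), |x - (k m : ℝ)| ≤ (u : ℝ) * |ξ - (m : ℝ) / (u : ℝ) - (w : ℝ)| := by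
    intro m w
    rw [hr m, abs_mul, abs_of_pos hu0]
    exact mul_le_mul_of_nonneg_left (round_le (ξ - (m : ℝ) / (u : ℝ)) w) hu0.le
  have hkinj : Set.InjOn k (Finset.range u : Set ℕ) := by
    intro m hm m' hm' h
    rw [Finset.mem_coe, Finset.mem_range] at hm hm'
    simp only [hk] at h
    have h1 : ((m : ℤ) + (u : ℤ) * z m) % (u : ℤ) = ((m' : ℤ) + (u : ℤ) * z m') % (u : ℤ) := by
      rw [h]
    rw [Int.add_mul_emod_self_left, Int.add_mul_emod_self_left,
      Int.emod_eq_of_lt (by omega) (by omega), Int.emod_eq_of_lt (by omega) (by omega)] at h1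
    exact_mod_cast h1
  -- the three parts
  set S0 := (Finset.range u).filter (fun m => |x - (k m : ℝ)| < ρ * u + 1) with hS0
  set S1 := (Finset.range u).filter (fun m => ρ * u + 1 ≤ x - (k m : ℝ)) with hS1
  set S2 := (Finset.range u).filter (fun m => ρ * u + 1 ≤ (k m : ℝ) - x) with hS2
  have hρu : 0 ≤ ρ * u := by positivity
  have hsplit : ∑ m ∈ Finset.range u, F m = ∑ m ∈ S0, F m + (∑ m ∈ S1, F m + ∑ m ∈ S2, F m) := by
    rw [← Finset.sum_filter_add_sum_filter_not (Finset.range u)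
      (fun m => |x - (k m : ℝ)| < ρ * u + 1) F]
    congr 1
    have hun : (Finset.range u).filter (fun m => ¬ |x - (k m : ℝ)| < ρ * u + 1) = S1 ∪ S2 := by
      ext m
      simp only [hS1, hS2, Finset.mem_filter, Finset.mem_union, not_lt]
      constructor
      · rintro ⟨h1, h2⟩
        rcases le_abs.1 h2 with h | h
        · exact Or.inl ⟨h1, h⟩
        · exact Or.inr ⟨h1, by linarith⟩
      · rintro (⟨h1, h2⟩ | ⟨h1, h2⟩)
        · exact ⟨h1, le_abs.2 (Or.inl h2)⟩
        · exact ⟨h1, le_abs.2 (Or.inr (by linarith))⟩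
    rw [hun, Finset.sum_union]
    rw [Finset.disjoint_left]
    intro m h1 h2
    simp only [hS1, hS2, Finset.mem_filter] at h1 h2
    linarith [h1.2, h2.2]
  have hb0 : ∑ m ∈ S0, F m ≤ (2 * ρ * u + 3) * A := by
    calc ∑ m ∈ S0, F m ≤ ∑ _m ∈ S0, A :=
          Finset.sum_le_sum (fun m hm => hFA m (Finset.mem_filter.1 hm).1)
      _ = (S0.card : ℝ) * A := by rw [Finset.sum_const, nsmul_eq_mul]
      _ ≤ (2 * ρ * u + 3) * A := by
          apply mul_le_mul_of_nonneg_right _ hA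
          have hcard : (S0.image k).card = S0.card :=
            Finset.card_image_of_injOn (hkinj.mono (by
              intro m hm
              exact (Finset.mem_filter.1 hm).1))
          have := card_near x (ρ * u) hρu (S0.image k) (by
            intro j hj
            rw [Finset.mem_image] at hj
            obtain ⟨m, hm, rfl⟩ := hj
            exact (Finset.mem_filter.1 hm).2)
          rw [hcard] at this
          linarith
  -- general bound for a far point
  have hfar : ∀ m ∈ Finset.range u, ∀ i : ℕ, 1 ≤ i → ρ * u + i ≤ |x - (k m : ℝ)| →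
      F m ≤ (3 * (u : ℝ)) / (i : ℝ) := by
    intro m hm i hi h
    have hi0 : (0 : ℝ) < (i : ℝ) := by exact_mod_cast hi
    have h1 := hF m hm ((i : ℝ) / (u : ℝ)) (by positivity) (by
      rw [div_le_iff₀ hu0]
      linarith [hhalf m]) (by
      intro w
      have := hnear m w
      have h2 : ρ * u + i ≤ (u : ℝ) * |ξ - (m : ℝ) / (u : ℝ) - (w : ℝ)| := h.trans this
      rw [← mul_le_mul_iff_right₀ hu0]
      calc (u : ℝ) * ((i : ℝ) / (u : ℝ) + ρ) = ρ * u + i := by field_simp; ring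
        _ ≤ _ := h2)
    calc F m ≤ 3 / ((i : ℝ) / (u : ℝ)) := h1
      _ = _ := by field_simp
  have hb1 : ∑ m ∈ S1, F m ≤ 3 * (u : ℝ) * (1 + Real.log u) := by
    apply side_le u (3 * (u : ℝ)) (by positivity) S1 F (fun m => ⌊x - (k m : ℝ) - ρ * u⌋.toNat)
    · intro m hm
      have hm2 := (Finset.mem_filter.1 hm).2
      have h1 : (1 : ℤ) ≤ ⌊x - (k m : ℝ) - ρ * u⌋ := by
        rw [Int.le_floor]
        push_cast
        linarith
      constructor
      · omega
      · have h2 : ⌊x - (k m : ℝ) - ρ * u⌋ ≤ (u : ℤ) := by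
          have h3 := Int.floor_le (x - (k m : ℝ) - ρ * u)
          have h4 := (abs_le.1 (hhalf m)).2
          have h5 : (⌊x - (k m : ℝ) - ρ * u⌋ : ℝ) ≤ ((u : ℤ) : ℝ) := by
            push_cast
            linarith
          exact_mod_cast h5
        omega
    · intro m hm
      have hm1 := (Finset.mem_filter.1 hm).1
      have hm2 := (Finset.mem_filter.1 hm).2
      have h1 : (1 : ℤ) ≤ ⌊x - (k m : ℝ) - ρ * u⌋ := by
        rw [Int.le_floor]
        push_cast
        linarith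
      apply hfar m hm1
      · omega
      · have h3 := Int.floor_le (x - (k m : ℝ) - ρ * u)
        have h4 : ((⌊x - (k m : ℝ) - ρ * u⌋.toNat : ℕ) : ℝ) = (⌊x - (k m : ℝ) - ρ * u⌋ : ℝ) := by
          have : ((⌊x - (k m : ℝ) - ρ * u⌋.toNat : ℕ) : ℤ) = ⌊x - (k m : ℝ) - ρ * u⌋ :=
            Int.toNat_of_nonneg (by omega)
          exact_mod_cast this
        rw [h4]
        have h5 := le_abs_self (x - (k m : ℝ))
        linarith
    · intro m hm m' hm' h
      have hm2 := (Finset.mem_filter.1 hm).2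
      have hm2' := (Finset.mem_filter.1 hm').2
      have h1 : (1 : ℤ) ≤ ⌊x - (k m : ℝ) - ρ * u⌋ := by
        rw [Int.le_floor]
        push_cast
        linarith
      have h1' : (1 : ℤ) ≤ ⌊x - (k m' : ℝ) - ρ * u⌋ := by
        rw [Int.le_floor]
        push_cast
        linarith
      have h2 : ⌊x - (k m : ℝ) - ρ * u⌋ = ⌊x - (k m' : ℝ) - ρ * u⌋ := by
        simp only at h
        omega
      have e1 : x - (k m : ℝ) - ρ * u = (x - ρ * u) - ((k m : ℤ) : ℝ) := by ring
      have e2 : x - (k m' : ℝ) - ρ * u = (x - ρ * u) - ((k m' : ℤ) : ℝ) := by ring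
      rw [e1, e2, Int.floor_sub_intCast, Int.floor_sub_intCast] at h2
      exact hkinj (Finset.mem_filter.1 hm).1 (Finset.mem_filter.1 hm').1 (by omega)
  have hb2 : ∑ m ∈ S2, F m ≤ 3 * (u : ℝ) * (1 + Real.log u) := by
    apply side_le u (3 * (u : ℝ)) (by positivity) S2 F (fun m => ⌊(k m : ℝ) - x - ρ * u⌋.toNat)
    · intro m hm
      have hm2 := (Finset.mem_filter.1 hm).2
      have h1 : (1 : ℤ) ≤ ⌊(k m : ℝ) - x - ρ * u⌋ := by
        rw [Int.le_floor]
        push_cast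
        linarith
      constructor
      · omega
      · have h2 : ⌊(k m : ℝ) - x - ρ * u⌋ ≤ (u : ℤ) := by
          have h3 := Int.floor_le ((k m : ℝ) - x - ρ * u)
          have h4 := (abs_le.1 (hhalf m)).1
          have h5 : (⌊(k m : ℝ) - x - ρ * u⌋ : ℝ) ≤ ((u : ℤ) : ℝ) := by
            push_cast
            linarith
          exact_mod_cast h5
        omega
    · intro m hm
      have hm1 := (Finset.mem_filter.1 hm).1
      have hm2 := (Finset.mem_filter.1 hm).2
      have h1 : (1 : ℤ) ≤ ⌊(k m : ℝ) - x - ρ * u⌋ := by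
        rw [Int.le_floor]
        push_cast
        linarith
      apply hfar m hm1
      · omega
      · have h3 := Int.floor_le ((k m : ℝ) - x - ρ * u)
        have h4 : ((⌊(k m : ℝ) - x - ρ * u⌋.toNat : ℕ) : ℝ) = (⌊(k m : ℝ) - x - ρ * u⌋ : ℝ) := by
          have : ((⌊(k m : ℝ) - x - ρ * u⌋.toNat : ℕ) : ℤ) = ⌊(k m : ℝ) - x - ρ * u⌋ :=
            Int.toNat_of_nonneg (by omega)
          exact_mod_cast this
        rw [h4]
        have h5 := neg_abs_le (x - (k m : ℝ))
        linarith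
    · intro m hm m' hm' h
      have hm2 := (Finset.mem_filter.1 hm).2
      have hm2' := (Finset.mem_filter.1 hm').2
      have h1 : (1 : ℤ) ≤ ⌊(k m : ℝ) - x - ρ * u⌋ := by
        rw [Int.le_floor]
        push_cast
        linarith
      have h1' : (1 : ℤ) ≤ ⌊(k m' : ℝ) - x - ρ * u⌋ := by
        rw [Int.le_floor]
        push_cast
        linarith
      have h2 : ⌊(k m : ℝ) - x - ρ * u⌋ = ⌊(k m' : ℝ) - x - ρ * u⌋ := by
        simp only at h
        omega
      have e1 : (k m : ℝ) - x - ρ * u = ((k m : ℤ) : ℝ) + (-x - ρ * u) := by ring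
      have e2 : (k m' : ℝ) - x - ρ * u = ((k m' : ℤ) : ℝ) + (-x - ρ * u) := by ring
      rw [e1, e2, Int.floor_intCast_add, Int.floor_intCast_add] at h2
      exact hkinj (Finset.mem_filter.1 hm).1 (Finset.mem_filter.1 hm').1 (by omega)
  have hlog : 0 ≤ Real.log u := Real.log_natCast_nonneg u
  have hlu : 0 ≤ (u : ℝ) * (1 + Real.log u) := by positivity
  rw [hsplit]
  nlinarith [hb0, hb1, hb2, hA]

end Pool.Agent.VM.H85
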